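import Pool.Agent.N795.ST.Sums
import Pool.Agent.N795.LN.Fin
import Pool.Agent.N795.LN.Loc
import Pool.Agent.N803.STGeo
import Pool.Agent.N887.LNStar
import Pool.Agent.N72.LNone
import Pool.Agent.N277.LNdet
import Pool.Agent.N157.LNKer
import Pool.Agent.N773.LNPDpos

set_option autoImplicit false

namespace Pool.Agent.Results.MP_6c3d62_pr.LongRangeContinuity

open Finset Equiv MeasureTheory Filter Topology

/-- The sum over all unordered pairs of the rates. -/
noncomputable def totalRate {V : Type} [Fintype V] (J : V → V → ℝ) : ℝ := ∑ x, ∑ y, J x y / 2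

/-- The probability that random stirring started at the identity, with an independent Poisson clock
of rate `J x y` for every unordered pair `{x, y}` (`J` symmetric), is at the permutation `g` at time
`t`: there are `n` rings up to time `t` with probability `exp (-R t) (R t)^n / n!`, `R` the total
rate, and each ring is a ring of the ordered pair `(x, y)` with probability `J x y / (2 R)`. -/
noncomputable def stirLaw {V : Type} [Fintype V] [DecidableEq V] (J : V → V → ℝ) (t : ℝ)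
    (g : Perm V) : ℝ :=
  ∑' n : ℕ, Real.exp (-(t * totalRate J)) * t ^ n / (n.factorial : ℝ) *
    ∑ w : Fin n → V × V, (∏ i, J (w i).1 (w i).2 / 2) *
      (if (List.ofFn fun i => swap (w i).1 (w i).2).prod = g then 1 else 0)

/-- The expectation of `F` under random stirring at time `t`. -/
noncomputable def stirExp {V : Type} [Fintype V] [DecidableEq V] (J : V → V → ℝ) (t : ℝ)
    (F : Perm V → ℝ) : ℝ := ∑ g, stirLaw J t g * F g

/-- The `i`-th largest cycle length (`i = 0` for the largest) divided by the number of points, and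
`0` if there are at most `i` cycles; the same formula as in the frozen statement. -/
noncomputable def cycleFrac {V : Type} [Fintype V] [DecidableEq V] (g : Perm V) (i : ℕ) : ℝ :=
  sSup {x : ℝ | i + 1 ≤ Multiset.card
    (Multiset.filter (fun c : ℕ => x ≤ (c : ℝ) / Fintype.card V) g.partition.parts)}

/-- The sup-norm on `ℤ ^ d`. -/
def supNorm {d : ℕ} (z : Fin d → ℤ) : ℕ := univ.sup fun i => (z i).natAbs

/-- The displacement `x - y` on the torus of side `L`, with coordinates in `(-L/2, L/2]`. -/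
def disp {d L : ℕ} (x y : Fin d → ZMod L) : Fin d → ℤ := fun i => (x i - y i).valMinAbs

/-- The rates on the torus given by a function `J` of the displacement (if `J` is even this is
`J (x - y)`, except that for an even side the value is an average over the signs for displacements
with a coordinate `L / 2`). -/
noncomputable def torusRate {d L : ℕ} (J : (Fin d → ℤ) → ℝ) (x y : Fin d → ZMod L) : ℝ :=
  open Classical in if x = y then 0 else (J (disp x y) + J (disp y x)) / 2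

/-- The expectation of `F` for random stirring with the rates `J` on the torus of side `L + 1`. -/
noncomputable def torusExp (d : ℕ) (J : (Fin d → ℤ) → ℝ) (t : ℝ) (L : ℕ)
    (F : Perm (Fin d → ZMod (L + 1)) → ℝ) : ℝ :=
  stirExp (torusRate J : (Fin d → ZMod (L + 1)) → (Fin d → ZMod (L + 1)) → ℝ) t F

/-- The probability that `cycleFrac g i` is at least `ε` at time `t`, on the torus of side `L + 1`. -/
noncomputable def cycleProb (d : ℕ) (J : (Fin d → ℤ) → ℝ) (t : ℝ) (i : ℕ) (ε : ℝ) (L : ℕ) : ℝ :=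
  open Classical in torusExp d J t L fun g => if ε ≤ cycleFrac g i then 1 else 0

section bridge

variable {V : Type} [Fintype V] [DecidableEq V]

theorem frac_eq (g : Perm V) (i : ℕ) :
    cycleFrac g i = Pool.Agent.TH268.PD.top (Pool.Agent.TH268.PD.frac g) i := by
  unfold cycleFrac Pool.Agent.TH268.PD.top
  congr 1
  ext x
  rw [Set.mem_ofPred_eq, Set.mem_ofPred_eq, Pool.Agent.TH268.PD.card_cyc g x]

theorem stir_eq (J : V → V → ℝ) (t : ℝ) (F : Perm V → ℝ) :
    stirExp J t F = Pool.Agent.N795.ST.mn J t F := by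
  have hlaw : ∀ g, stirLaw J t g = Real.exp (-(t * totalRate J)) *
      Pool.Agent.W805.LR.stirMass J t g := fun g => Pool.Agent.W805.LR.series_eq J t g
  have hsum : ∑ g, Pool.Agent.W805.LR.stirMass J t g = Real.exp (t * totalRate J) :=
    Pool.Agent.W805.LR.sum_mass J t
  unfold stirExp Pool.Agent.N795.ST.mn Pool.Agent.TH268.PD.law
  rw [hsum]
  refine Finset.sum_congr rfl fun g _ => ?_
  rw [hlaw, Real.exp_neg, div_eq_inv_mul]

theorem tr_eq {d L : ℕ} (J : (Fin d → ℤ) → ℝ) :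
    (torusRate J : (Fin d → ZMod L) → (Fin d → ZMod L) → ℝ) = Pool.Agent.N795.ST.tr J := rfl

theorem torus_eq (d : ℕ) (J : (Fin d → ℤ) → ℝ) (t : ℝ) (L : ℕ)
    (F : Perm (Fin d → ZMod (L + 1)) → ℝ) :
    torusExp d J t L F = Pool.Agent.N795.ST.mn
      (Pool.Agent.N795.ST.tr J : (Fin d → ZMod (L + 1)) → (Fin d → ZMod (L + 1)) → ℝ) t F := by
  unfold torusExp
  rw [stir_eq, tr_eq]

end bridge

/-- no macroscopic cycles -/
theorem no_macro {d : ℕ} {J : (Fin d → ℤ) → ℝ} {t : ℝ}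
    (hJ0 : ∀ (L : ℕ) (x y : Fin d → ZMod (L + 1)), 0 ≤ Pool.Agent.N795.ST.tr J x y) (ht : 0 ≤ t)
    (h : ∀ (k : ℕ) (f : (Fin k → ℝ) → ℝ), Continuous f → (∃ B, ∀ u, |f u| ≤ B) →
      Tendsto (fun L : ℕ => Pool.Agent.N795.ST.mn
        (Pool.Agent.N795.ST.tr J : (Fin d → ZMod (L + 1)) → (Fin d → ZMod (L + 1)) → ℝ) t
          (fun g => f (fun i => Pool.Agent.TH268.PD.top (Pool.Agent.TH268.PD.frac g) i))) atTop
          (𝓝 (Pool.Agent.TH268.PD.pdm (fun u : Fin k → ℝ => f (fun i => 0 * u i)))))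
    (i : ℕ) (ε : ℝ) (hε : 0 < ε) : Tendsto (cycleProb d J t i ε) atTop (𝓝 0) := by
  classical
  have h1 := h (i + 1) (fun u => min 1 (|u (Fin.last i)| / ε)) (by fun_prop)
    ⟨1, fun u => by
      rw [abs_of_nonneg (le_min zero_le_one (by positivity))]
      exact min_le_left _ _⟩
  have h2 : Pool.Agent.TH268.PD.pdm (fun u : Fin (i + 1) → ℝ =>
      min 1 (|(fun j : Fin (i + 1) => 0 * u j) (Fin.last i)| / ε)) = 0 := by
    unfold Pool.Agent.TH268.PD.pdm
    simp
  rw [h2] at h1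
  refine tendsto_of_tendsto_of_tendsto_of_le_of_le tendsto_const_nhds h1 (fun L => ?_)
    (fun L => ?_)
  · unfold cycleProb
    rw [torus_eq]
    exact Pool.Agent.N795.ST.mn_nonneg (hJ0 L) ht fun g => by split_ifs <;> norm_num
  · unfold cycleProb
    rw [torus_eq]
    refine Pool.Agent.N795.ST.mn_mono (hJ0 L) ht fun g => ?_
    rw [frac_eq]
    obtain ⟨h3, -⟩ := Pool.Agent.TH268.PD.top_mem g i
    have h4 : (((Fin.last i : Fin (i + 1)) : ℕ)) = i := Fin.val_last i
    beta_reduce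
    rw [h4, abs_of_nonneg h3]
    split_ifs with h5
    · exact le_min le_rfl (by rwa [le_div_iff₀ hε, one_mul])
    · exact le_min zero_le_one (by positivity)

/-- macroscopic cycles -/
theorem many {d : ℕ} {J : (Fin d → ℤ) → ℝ} {t m : ℝ} (hm : 0 < m)
    (hJ0 : ∀ (L : ℕ) (x y : Fin d → ZMod (L + 1)), 0 ≤ Pool.Agent.N795.ST.tr J x y) (ht : 0 ≤ t)
    (h : ∀ (k : ℕ) (f : (Fin k → ℝ) → ℝ), Continuous f → (∃ B, ∀ u, |f u| ≤ B) →
      Tendsto (fun L : ℕ => Pool.Agent.N795.ST.mn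
        (Pool.Agent.N795.ST.tr J : (Fin d → ZMod (L + 1)) → (Fin d → ZMod (L + 1)) → ℝ) t
          (fun g => f (fun i => Pool.Agent.TH268.PD.top (Pool.Agent.TH268.PD.frac g) i))) atTop
          (𝓝 (Pool.Agent.TH268.PD.pdm (fun u : Fin k → ℝ => f (fun i => m * u i)))))
    (i : ℕ) : ∃ ε₀ c : ℝ, 0 < ε₀ ∧ 0 < c ∧ ∃ L₀ : ℕ, ∀ L : ℕ, L₀ ≤ L → ∀ ε : ℝ, ε ≤ ε₀ →
      c ≤ cycleProb d J t i ε L := by
  classical
  obtain ⟨ε₀, c, hε₀, hc, hpos⟩ := Pool.Agent.N795.LN.pd_pos i m hm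
  have h1 := h (i + 1) (fun u => min 1 (max 0 (u (Fin.last i) / ε₀ - 1))) (by fun_prop)
    ⟨1, fun u => by
      rw [abs_of_nonneg (le_min zero_le_one (le_max_left _ _))]
      exact min_le_left _ _⟩
  obtain ⟨L₀, hL₀⟩ := Filter.eventually_atTop.1
    (h1.eventually_const_le (lt_of_lt_of_le (show c / 2 < c by linarith) hpos))
  refine ⟨ε₀, c / 2, hε₀, by positivity, L₀, fun L hL ε hε => (hL₀ L hL).trans ?_⟩
  unfold cycleProb
  rw [torus_eq]
  refine Pool.Agent.N795.ST.mn_mono (hJ0 L) ht fun g => ?_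
  rw [frac_eq]
  have h4 : (((Fin.last i : Fin (i + 1)) : ℕ)) = i := Fin.val_last i
  beta_reduce
  rw [h4]
  split_ifs with h5
  · exact min_le_left _ _
  · rw [not_le] at h5
    refine (min_le_right _ _).trans (max_le le_rfl ?_)
    have h6 : Pool.Agent.TH268.PD.top (Pool.Agent.TH268.PD.frac g) i / ε₀ ≤ 1 := by
      rw [div_le_one hε₀]
      linarith
    linarith

/-- **The transition to macroscopic cycles is continuous for long range rates.** Random stirring on
the torus in dimension `d ≥ 1` with summable rates `J` (all finite sums are at most `S`) with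
`J z ≥ lam |z| ^ (-(d + σ))` for all displacements `z ≠ 0`, where `0 < σ < d` is arbitrary; otherwise
`J` is arbitrary, in particular a nearest neighbour part of any strength may be added. With
`p 0 ≥ p 1 ≥ ...` the cycle lengths divided by the number of points, there are a function `m` and a
time `β` with `0 < β`, `1 / S ≤ β` such that:

* (a) for `0 < t ≤ β` (also at `β`) the probability of `ε ≤ p i` tends to `0`, for all `i` and all
  `ε > 0`;
* (b) for every `t > 0` with `m t > 0` and every `i` there are `ε₀, c > 0` such that the probability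
  of `ε ≤ p i` is at least `c` for all large sides and all `ε ≤ ε₀`; there are such times in every
  interval `(β, β + δ)`;
* (c) for every `t > 0` the limits as the side tends to infinity of the expected sums of the first
  `k` of the `p i` exist and converge to `m t` as `k → ∞`; `m` has values in `[0, 1]`, it is
  Hölder continuous on `[0, ∞)` with exponent `(d - σ) / (5 d + σ)`, `m t = 0` for `t ≤ β` and
  `m t → 1` as `t → ∞`. -/
theorem result (d : ℕ) (σ lam S : ℝ) (J : (Fin d → ℤ) → ℝ) (hd : 1 ≤ d) (hσ : 0 < σ)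
    (hσd : σ < d) (hlam : 0 < lam)
    (hJ : ∀ z, z ≠ 0 → lam * (supNorm z : ℝ) ^ (-((d : ℝ) + σ)) ≤ J z)
    (hS : ∀ s : Finset (Fin d → ℤ), 0 ∉ s → ∑ z ∈ s, J z ≤ S) :
    ∃ (m : ℝ → ℝ) (β : ℝ), 0 < β ∧ 1 ≤ β * S ∧
      (∀ t : ℝ, 0 < t → t ≤ β → ∀ (i : ℕ) (ε : ℝ), 0 < ε →
        Tendsto (cycleProb d J t i ε) atTop (𝓝 0)) ∧
      (∀ t : ℝ, 0 < t → 0 < m t → ∀ i : ℕ, ∃ ε₀ c : ℝ, 0 < ε₀ ∧ 0 < c ∧ ∃ L₀ : ℕ, ∀ L : ℕ, L₀ ≤ L →
        ∀ ε : ℝ, ε ≤ ε₀ → c ≤ cycleProb d J t i ε L) ∧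
      (∀ δ : ℝ, 0 < δ → ∃ t, β < t ∧ t < β + δ ∧ 0 < m t) ∧
      (∀ t : ℝ, 0 < t → ∃ M : ℕ → ℝ,
        (∀ k : ℕ, Tendsto (fun L => ∑ i ∈ range k, torusExp d J t L (fun g => cycleFrac g i))
          atTop (𝓝 (M k))) ∧ Tendsto M atTop (𝓝 (m t))) ∧
      (∀ t : ℝ, 0 ≤ m t ∧ m t ≤ 1) ∧
      (∃ C : ℝ, ∀ t t' : ℝ, 0 ≤ t → 0 ≤ t' →
        |m t - m t'| ≤ C * |t - t'| ^ (((d : ℝ) - σ) / (5 * d + σ))) ∧
      (∀ t : ℝ, t ≤ β → m t = 0) ∧
      Tendsto m atTop (𝓝 1) := by
  have hd1 : (1 : ℝ) ≤ d := by exact_mod_cast hd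
  have hSM : Pool.Agent.N795.LN.SM d σ lam S J := ⟨hlam, hJ, hS⟩
  have hJ0 : ∀ (L : ℕ) (x y : Fin d → ZMod (L + 1)), 0 ≤ Pool.Agent.N795.ST.tr J x y :=
    fun L x y => hSM.tr_nonneg x y
  obtain ⟨m, a, hm, -, ⟨D, hD⟩, hsmall, hlarge⟩ := Pool.Agent.N795.LN.all_times
    (Pool.Agent.N795.LN.lnmt Pool.Agent.N795.LN.star Pool.Agent.N795.LN.one_step
      Pool.Agent.N795.LN.det) Pool.Agent.N795.LN.ker_le Pool.Agent.N795.ST.geo hSM hd hσ hσd
  have hS0 := hSM.S_nonneg
  have hm01 : ∀ t, 0 ≤ m t ∧ m t ≤ 1 := by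
    intro t
    by_cases ht : 0 < t
    · exact ⟨(hm t ht).1, (hm t ht).2.1⟩
    · rw [hsmall S t hS (by nlinarith)]
      exact ⟨le_rfl, zero_le_one⟩
  have hγ : 0 < ((d : ℝ) - σ) / (5 * d + σ) := by
    have : 0 < (d : ℝ) - σ := by linarith
    positivity
  obtain ⟨β, hβ0, hβS, hβz, hβp⟩ := Pool.Agent.N795.LN.crit (S := S) (fun t => (hm01 t).1) hγ hD
    (fun t ht => hsmall S t hS ht) hlarge
  refine ⟨m, β, hβ0, hβS, fun t ht htβ => ?_, fun t ht hmt => ?_, hβp, fun t ht => ?_, hm01,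
    ⟨D, hD⟩, hβz, hlarge⟩
  · obtain ⟨-, -, -, -, -, -, h6⟩ := hm t ht
    rw [hβz t htβ] at h6
    exact fun i ε hε => no_macro hJ0 ht.le h6 i ε hε
  · obtain ⟨-, -, -, -, -, -, h6⟩ := hm t ht
    exact many hmt hJ0 ht.le h6
  · obtain ⟨h1, h2, -, -, -, -, h6⟩ := hm t ht
    simp only [torus_eq, frac_eq]
    exact Pool.Agent.N795.ST.sums_lim (V := fun L => Fin d → ZMod (L + 1))
      (fun L => Pool.Agent.N795.ST.tr J) t (m t) h1 h2 h6

end Pool.Agent.Results.MP_6c3d62_pr.LongRangeContinuity
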