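import Pool.Agent.N795.LR.Phase

/-!
# Random stirring with long range rates: the transition to macroscopic cycles
-/

set_option autoImplicit false

namespace Pool.Agent.Results.MP_6c3d62_pr.LongRangeTransition

open Finset Equiv Filter Topology

/-- The sum over all unordered pairs of the rates. -/
noncomputable def totalRate {V : Type} [Fintype V] (J : V → V → ℝ) : ℝ := ∑ x, ∑ y, J x y / 2

/-- The probability that random stirring started at the identity, with an independent Poisson clock
of rate `J x y` for every unordered pair `{x, y}` (`J` symmetric), is at the permutation `g` at time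
`t`: there are `n` rings up to time `t` with probability `exp (-R t) (R t)^n / n!`, `R` the total
rate, and each ring is a ring of the ordered pair `(x, y)` with probability `J x y / (2 R)`. -/
noncomputable def stirLaw {V : Type} [Fintype V] [DecidableEq V] (J : V → V → ℝ) (t : ℝ)
    (g : Perm V) : ℝ :=
  ∑' n : ℕ, Real.exp (-(t * totalRate J)) * t ^ n / (n.factorial : ℝ) *
    ∑ w : Fin n → V × V, (∏ i, J (w i).1 (w i).2 / 2) *
      (if (List.ofFn fun i => swap (w i).1 (w i).2).prod = g then 1 else 0)

/-- The expectation of `F` under random stirring at time `t`. -/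
noncomputable def stirExp {V : Type} [Fintype V] [DecidableEq V] (J : V → V → ℝ) (t : ℝ)
    (F : Perm V → ℝ) : ℝ := ∑ g, stirLaw J t g * F g

/-- The `i`-th largest cycle length (`i = 0` for the largest) divided by the number of points, and
`0` if there are at most `i` cycles; the same formula as in the frozen statement. -/
noncomputable def cycleFrac {V : Type} [Fintype V] [DecidableEq V] (g : Perm V) (i : ℕ) : ℝ :=
  sSup {x : ℝ | i + 1 ≤ Multiset.card
    (Multiset.filter (fun c : ℕ => x ≤ (c : ℝ) / Fintype.card V) g.partition.parts)}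

/-- The probability that `cycleFrac g i` is at least `ε` at time `t`. -/
noncomputable def cycleProb {V : Type} [Fintype V] [DecidableEq V] (J : V → V → ℝ) (t : ℝ) (i : ℕ)
    (ε : ℝ) : ℝ :=
  open Classical in stirExp J t fun g => if ε ≤ cycleFrac g i then 1 else 0

/-- Sup-distance in the box `{0, ..., L - 1}^d`. It is at least the distance on the torus. -/
def boxDist {d L : ℕ} (x y : Fin d → ZMod L) : ℕ :=
  univ.sup fun a => (((x a).val : ℤ) - (y a).val).natAbs

/-- Symmetric rates that are at least `lam * distance ^ (-(d + σ))`; otherwise arbitrary. Since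
`boxDist` is at least the distance on the torus, the condition with the latter is stronger. -/
def Rates (d L : ℕ) (σ lam : ℝ) (J : (Fin d → ZMod L) → (Fin d → ZMod L) → ℝ) : Prop :=
  (∀ x y, J x y = J y x) ∧ (∀ x, J x x = 0) ∧
    ∀ x y, x ≠ y → lam * (boxDist x y : ℝ) ^ (-((d : ℝ) + σ)) ≤ J x y

section bridge

variable {V : Type} [Fintype V] [DecidableEq V]

theorem frac_eq (g : Perm V) (i : ℕ) :
    cycleFrac g i = Pool.Agent.TH268.PD.top (Pool.Agent.TH268.PD.frac g) i :=
  Pool.Agent.N795.LR.top_pf g i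

theorem stir_eq (J : V → V → ℝ) (t : ℝ) (F : Perm V → ℝ) :
    stirExp J t F = ∑ g, Pool.Agent.TH268.PD.law J t g * F g := by
  have hlaw : ∀ g, stirLaw J t g = Real.exp (-(t * totalRate J)) *
      Pool.Agent.W805.LR.stirMass J t g := fun g => Pool.Agent.W805.LR.series_eq J t g
  have hsum : ∑ g, Pool.Agent.W805.LR.stirMass J t g = Real.exp (t * totalRate J) :=
    Pool.Agent.W805.LR.sum_mass J t
  unfold stirExp Pool.Agent.TH268.PD.law
  rw [hsum]
  refine Finset.sum_congr rfl fun g _ => ?_
  rw [hlaw, Real.exp_neg, div_eq_inv_mul]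

theorem prob_eq (J : V → V → ℝ) (t : ℝ) (i : ℕ) (ε : ℝ) :
    cycleProb J t i ε = Pool.Agent.N795.LR.pr (Pool.Agent.TH268.PD.law J t) i ε := by
  classical
  unfold cycleProb Pool.Agent.N795.LR.pr
  rw [stir_eq]
  refine Finset.sum_congr rfl fun g _ => ?_
  simp only [frac_eq]

end bridge

/-- Random stirring with long range rates on the torus of side `L` in dimension `d ≥ 1`: any
symmetric rates that are at least `lam * distance ^ (-(d + σ))`, `0 < σ < d`. The transition to
macroscopic cycles, in the form of the problem. With `p 0 ≥ p 1 ≥ ...` the cycle lengths divided by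
the number of points, there is a time `t₁` that depends only on `d`, `σ` and `lam` such that:

* for every `i` there are `ε, c > 0` such that for every `t ≥ t₁` the probability of `ε ≤ p i` is at
least `c` for all large `L` and all such rates;

* for every `η > 0` there are `T` and `k` such that for every `t ≥ T` the expectation of the sum of
the first `k` of the `p i` is at least `1 - η` for all large `L` and all such rates;

* for every sequence of such rates on the tori of side `L + 1` with total rate at most `S` at every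
point there is a `β` with `1 / S ≤ β ≤ t₁` such that the probability of `ε ≤ p i` tends to `0` for
all `i`, all `ε > 0` and `0 ≤ t < β`, and such that in every interval `[β, b)`, `β < b`, there is a
`t` such that for every `i` and some `ε, c > 0` this probability is at least `c` for arbitrarily
large `L`; the latter holds at every time `t > 0` at which the probability does not tend to `0` for
some `i` and `ε > 0`. -/
theorem result (d : ℕ) (σ lam : ℝ) (hd : 1 ≤ d) (hσ : 0 < σ) (hσd : σ < d) (hlam : 0 < lam) :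
    ∃ t₁ : ℝ, 0 < t₁ ∧
      (∀ i : ℕ, ∃ ε c : ℝ, 0 < ε ∧ 0 < c ∧ ∀ t : ℝ, t₁ ≤ t →
        ∃ L₀ : ℕ, ∀ (L : ℕ) [NeZero L], L₀ ≤ L →
          ∀ J : (Fin d → ZMod L) → (Fin d → ZMod L) → ℝ, Rates d L σ lam J →
            c ≤ cycleProb J t i ε) ∧
      (∀ η : ℝ, 0 < η → ∃ (T : ℝ) (k : ℕ), ∀ t : ℝ, T ≤ t →
        ∃ L₀ : ℕ, ∀ (L : ℕ) [NeZero L], L₀ ≤ L →
          ∀ J : (Fin d → ZMod L) → (Fin d → ZMod L) → ℝ, Rates d L σ lam J →
            1 - η ≤ ∑ i ∈ range k, stirExp J t fun g => cycleFrac g i) ∧
      ∀ (S : ℝ) (J : ∀ L : ℕ, (Fin d → ZMod (L + 1)) → (Fin d → ZMod (L + 1)) → ℝ),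
      (∀ L : ℕ, Rates d (L + 1) σ lam (J L)) → (∀ (L : ℕ) (x : Fin d → ZMod (L + 1)),
        ∑ y, J L x y ≤ S) →
      ∃ β : ℝ, 0 < β ∧ 1 ≤ S * β ∧ β ≤ t₁ ∧
        (∀ t : ℝ, 0 ≤ t → t < β → ∀ (i : ℕ) (ε : ℝ), 0 < ε →
          Tendsto (fun L => cycleProb (J L) t i ε) atTop (𝓝 0)) ∧
        (∀ b : ℝ, β < b → ∃ t : ℝ, β ≤ t ∧ t < b ∧ ∀ i : ℕ, ∃ ε c : ℝ, 0 < ε ∧ 0 < c ∧
          ∃ᶠ L : ℕ in atTop, c ≤ cycleProb (J L) t i ε) ∧
        (∀ t : ℝ, 0 < t → (∃ (i : ℕ) (ε : ℝ), 0 < ε ∧
            ¬ Tendsto (fun L => cycleProb (J L) t i ε) atTop (𝓝 0)) →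
          ∀ i : ℕ, ∃ ε c : ℝ, 0 < ε ∧ 0 < c ∧
            ∃ᶠ L : ℕ in atTop, c ≤ cycleProb (J L) t i ε) := by
  simp only [prob_eq, stir_eq, frac_eq]
  exact Pool.Agent.N795.LR.transition d σ lam hd hσ hσd hlam

end Pool.Agent.Results.MP_6c3d62_pr.LongRangeTransition
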