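import Pool.Agent.N795.ST.Sums
import Pool.Agent.N795.LN.Fin
import Pool.Agent.N795.LN.Loc
import Pool.Agent.N795.SO.Main
import Pool.Agent.N803.STGeo
import Pool.Agent.N887.LNStar
import Pool.Agent.N72.LNone
import Pool.Agent.N277.LNdet
import Pool.Agent.N157.LNKer
import Pool.Agent.N773.LNPDpos
import Pool.Agent.N284.SOvari
import Pool.Agent.N286.SOkol
import Pool.Agent.N615.SOEll
import Pool.Agent.N700.SOpde
import Pool.Agent.N507.SOburg
import Pool.Agent.N281.SOroot
import Pool.Agent.N427.SOTrans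
import Pool.Agent.N128.SOdet1

set_option autoImplicit false

namespace Pool.Agent.Results.MP_6c3d62_pr.SpreadOutLimit

open Finset Equiv MeasureTheory Filter Topology

/-- The sum over all unordered pairs of the rates. -/
noncomputable def totalRate {V : Type} [Fintype V] (J : V → V → ℝ) : ℝ := ∑ x, ∑ y, J x y / 2

/-- The probability that random stirring started at the identity, with an independent Poisson clock
of rate `J x y` for every unordered pair `{x, y}` (`J` symmetric), is at the permutation `g` at time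
`t`: there are `n` rings up to time `t` with probability `exp (-R t) (R t)^n / n!`, `R` the total
rate, and each ring is a ring of the ordered pair `(x, y)` with probability `J x y / (2 R)`. -/
noncomputable def stirLaw {V : Type} [Fintype V] [DecidableEq V] (J : V → V → ℝ) (t : ℝ)
    (g : Perm V) : ℝ :=
  ∑' n : ℕ, Real.exp (-(t * totalRate J)) * t ^ n / (n.factorial : ℝ) *
    ∑ w : Fin n → V × V, (∏ i, J (w i).1 (w i).2 / 2) *
      (if (List.ofFn fun i => swap (w i).1 (w i).2).prod = g then 1 else 0)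

/-- The expectation of `F` under random stirring at time `t`. -/
noncomputable def stirExp {V : Type} [Fintype V] [DecidableEq V] (J : V → V → ℝ) (t : ℝ)
    (F : Perm V → ℝ) : ℝ := ∑ g, stirLaw J t g * F g

/-- The `i`-th largest cycle length (`i = 0` for the largest) divided by the number of points, and
`0` if there are at most `i` cycles; the same formula as in the frozen statement. -/
noncomputable def cycleFrac {V : Type} [Fintype V] [DecidableEq V] (g : Perm V) (i : ℕ) : ℝ :=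
  sSup {x : ℝ | i + 1 ≤ Multiset.card
    (Multiset.filter (fun c : ℕ => x ≤ (c : ℝ) / Fintype.card V) g.partition.parts)}

/-- The mean of `f (ξ 0, ..., ξ (m - 1))` for the Poisson-Dirichlet(1) random sequence
`ξ 0 ≥ ξ 1 ≥ ...`, the ordered stick breaking sequence; the same formula as in the frozen
statement. -/
noncomputable def pdMean {m : ℕ} (f : (Fin m → ℝ) → ℝ) : ℝ :=
  ∫ U, f (fun i : Fin m => sSup {x : ℝ | (((i : ℕ) + 1 : ℕ) : ℕ∞) ≤
        Set.encard {j : ℕ | x ≤ (U j : ℝ) * ∏ l ∈ Finset.range j, (1 - (U l : ℝ))}})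
    ∂(Measure.infinitePi (fun _ : ℕ => (volume : Measure unitInterval)))

/-- The sup-norm on `ℤ ^ d`. -/
def supNorm {d : ℕ} (z : Fin d → ℤ) : ℕ := univ.sup fun i => (z i).natAbs

/-- The displacement `x - y` on the torus of side `L`, with coordinates in `(-L/2, L/2]`. -/
def disp {d L : ℕ} (x y : Fin d → ZMod L) : Fin d → ℤ := fun i => (x i - y i).valMinAbs

/-- The rates on the torus given by a function `J` of the displacement (if `J` is even this is
`J (x - y)`, except that for an even side the value is an average over the signs for displacements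
with a coordinate `L / 2`). -/
noncomputable def torusRate {d L : ℕ} (J : (Fin d → ℤ) → ℝ) (x y : Fin d → ZMod L) : ℝ :=
  open Classical in if x = y then 0 else (J (disp x y) + J (disp y x)) / 2

/-- The expectation of `F` for random stirring with the rates `J` on the torus of side `L + 1`. -/
noncomputable def torusExp (d : ℕ) (J : (Fin d → ℤ) → ℝ) (t : ℝ) (L : ℕ)
    (F : Perm (Fin d → ZMod (L + 1)) → ℝ) : ℝ :=
  stirExp (torusRate J : (Fin d → ZMod (L + 1)) → (Fin d → ZMod (L + 1)) → ℝ) t F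

/-- The probability that `cycleFrac g i` is at least `ε` at time `t`, on the torus of side `L + 1`. -/
noncomputable def cycleProb (d : ℕ) (J : (Fin d → ℤ) → ℝ) (t : ℝ) (i : ℕ) (ε : ℝ) (L : ℕ) : ℝ :=
  open Classical in torusExp d J t L fun g => if ε ≤ cycleFrac g i then 1 else 0

/-- The density of the giant component of a Poisson branching process (or Erdős-Rényi graph) with
mean degree `u`: the largest solution in `[0, 1]` of `x = 1 - exp (-(u x))`. -/
noncomputable def giantDensity (u : ℝ) : ℝ :=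
  sSup {x : ℝ | 0 ≤ x ∧ x ≤ 1 ∧ x = 1 - Real.exp (-(u * x))}

section bridge

variable {V : Type} [Fintype V] [DecidableEq V]

theorem frac_eq (g : Perm V) (i : ℕ) :
    cycleFrac g i = Pool.Agent.TH268.PD.top (Pool.Agent.TH268.PD.frac g) i := by
  unfold cycleFrac Pool.Agent.TH268.PD.top
  congr 1
  ext x
  rw [Set.mem_ofPred_eq, Set.mem_ofPred_eq, Pool.Agent.TH268.PD.card_cyc g x]

theorem pd_eq {m : ℕ} (f : (Fin m → ℝ) → ℝ) : pdMean f = Pool.Agent.TH268.PD.pdm f := rfl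

theorem stir_eq (J : V → V → ℝ) (t : ℝ) (F : Perm V → ℝ) :
    stirExp J t F = Pool.Agent.N795.ST.mn J t F := by
  have hlaw : ∀ g, stirLaw J t g = Real.exp (-(t * totalRate J)) *
      Pool.Agent.W805.LR.stirMass J t g := fun g => Pool.Agent.W805.LR.series_eq J t g
  have hsum : ∑ g, Pool.Agent.W805.LR.stirMass J t g = Real.exp (t * totalRate J) :=
    Pool.Agent.W805.LR.sum_mass J t
  unfold stirExp Pool.Agent.N795.ST.mn Pool.Agent.TH268.PD.law
  rw [hsum]
  refine Finset.sum_congr rfl fun g _ => ?_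
  rw [hlaw, Real.exp_neg, div_eq_inv_mul]

theorem tr_eq {d L : ℕ} (J : (Fin d → ℤ) → ℝ) :
    (torusRate J : (Fin d → ZMod L) → (Fin d → ZMod L) → ℝ) = Pool.Agent.N795.ST.tr J := rfl

theorem torus_eq (d : ℕ) (J : (Fin d → ℤ) → ℝ) (t : ℝ) (L : ℕ)
    (F : Perm (Fin d → ZMod (L + 1)) → ℝ) :
    torusExp d J t L F = Pool.Agent.N795.ST.mn
      (Pool.Agent.N795.ST.tr J : (Fin d → ZMod (L + 1)) → (Fin d → ZMod (L + 1)) → ℝ) t F := by
  unfold torusExp
  rw [stir_eq, tr_eq]

end bridge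

/-- no macroscopic cycles -/
theorem no_macro {d : ℕ} {J : (Fin d → ℤ) → ℝ} {t : ℝ}
    (hJ0 : ∀ (L : ℕ) (x y : Fin d → ZMod (L + 1)), 0 ≤ Pool.Agent.N795.ST.tr J x y) (ht : 0 ≤ t)
    (h : ∀ (k : ℕ) (f : (Fin k → ℝ) → ℝ), Continuous f → (∃ B, ∀ u, |f u| ≤ B) →
      Tendsto (fun L : ℕ => Pool.Agent.N795.ST.mn
        (Pool.Agent.N795.ST.tr J : (Fin d → ZMod (L + 1)) → (Fin d → ZMod (L + 1)) → ℝ) t
          (fun g => f (fun i => Pool.Agent.TH268.PD.top (Pool.Agent.TH268.PD.frac g) i))) atTop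
          (𝓝 (Pool.Agent.TH268.PD.pdm (fun u : Fin k → ℝ => f (fun i => 0 * u i)))))
    (i : ℕ) (ε : ℝ) (hε : 0 < ε) : Tendsto (cycleProb d J t i ε) atTop (𝓝 0) := by
  classical
  have h1 := h (i + 1) (fun u => min 1 (|u (Fin.last i)| / ε)) (by fun_prop)
    ⟨1, fun u => by
      rw [abs_of_nonneg (le_min zero_le_one (by positivity))]
      exact min_le_left _ _⟩
  have h2 : Pool.Agent.TH268.PD.pdm (fun u : Fin (i + 1) → ℝ =>
      min 1 (|(fun j : Fin (i + 1) => 0 * u j) (Fin.last i)| / ε)) = 0 := by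
    unfold Pool.Agent.TH268.PD.pdm
    simp
  rw [h2] at h1
  refine tendsto_of_tendsto_of_tendsto_of_le_of_le tendsto_const_nhds h1 (fun L => ?_)
    (fun L => ?_)
  · unfold cycleProb
    rw [torus_eq]
    exact Pool.Agent.N795.ST.mn_nonneg (hJ0 L) ht fun g => by split_ifs <;> norm_num
  · unfold cycleProb
    rw [torus_eq]
    refine Pool.Agent.N795.ST.mn_mono (hJ0 L) ht fun g => ?_
    rw [frac_eq]
    obtain ⟨h3, -⟩ := Pool.Agent.TH268.PD.top_mem g i
    have h4 : (((Fin.last i : Fin (i + 1)) : ℕ)) = i := Fin.val_last i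
    beta_reduce
    rw [h4, abs_of_nonneg h3]
    split_ifs with h5
    · exact le_min le_rfl (by rwa [le_div_iff₀ hε, one_mul])
    · exact le_min zero_le_one (by positivity)

/-- macroscopic cycles -/
theorem many {d : ℕ} {J : (Fin d → ℤ) → ℝ} {t m : ℝ} (hm : 0 < m)
    (hJ0 : ∀ (L : ℕ) (x y : Fin d → ZMod (L + 1)), 0 ≤ Pool.Agent.N795.ST.tr J x y) (ht : 0 ≤ t)
    (h : ∀ (k : ℕ) (f : (Fin k → ℝ) → ℝ), Continuous f → (∃ B, ∀ u, |f u| ≤ B) →
      Tendsto (fun L : ℕ => Pool.Agent.N795.ST.mn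
        (Pool.Agent.N795.ST.tr J : (Fin d → ZMod (L + 1)) → (Fin d → ZMod (L + 1)) → ℝ) t
          (fun g => f (fun i => Pool.Agent.TH268.PD.top (Pool.Agent.TH268.PD.frac g) i))) atTop
          (𝓝 (Pool.Agent.TH268.PD.pdm (fun u : Fin k → ℝ => f (fun i => m * u i)))))
    (i : ℕ) : ∃ ε₀ c : ℝ, 0 < ε₀ ∧ 0 < c ∧ ∃ L₀ : ℕ, ∀ L : ℕ, L₀ ≤ L → ∀ ε : ℝ, ε ≤ ε₀ →
      c ≤ cycleProb d J t i ε L := by
  classical
  obtain ⟨ε₀, c, hε₀, hc, hpos⟩ := Pool.Agent.N795.LN.pd_pos i m hm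
  have h1 := h (i + 1) (fun u => min 1 (max 0 (u (Fin.last i) / ε₀ - 1))) (by fun_prop)
    ⟨1, fun u => by
      rw [abs_of_nonneg (le_min zero_le_one (le_max_left _ _))]
      exact min_le_left _ _⟩
  obtain ⟨L₀, hL₀⟩ := Filter.eventually_atTop.1
    (h1.eventually_const_le (lt_of_lt_of_le (show c / 2 < c by linarith) hpos))
  refine ⟨ε₀, c / 2, hε₀, by positivity, L₀, fun L hL ε hε => (hL₀ L hL).trans ?_⟩
  unfold cycleProb
  rw [torus_eq]
  refine Pool.Agent.N795.ST.mn_mono (hJ0 L) ht fun g => ?_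
  rw [frac_eq]
  have h4 : (((Fin.last i : Fin (i + 1)) : ℕ)) = i := Fin.val_last i
  beta_reduce
  rw [h4]
  split_ifs with h5
  · exact min_le_left _ _
  · rw [not_le] at h5
    refine (min_le_right _ _).trans (max_le le_rfl ?_)
    have h6 : Pool.Agent.TH268.PD.top (Pool.Agent.TH268.PD.frac g) i / ε₀ ≤ 1 := by
      rw [div_le_one hε₀]
      linarith
    linarith

/-- **Spread-out long range stirring is close to mean field stirring, up to macroscopic scales.**
Let `d ≥ 1`, `0 < σ < d`, `lam, S, δ > 0`. There is `ε > 0` such that the following holds for random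
stirring on the torus with all rates `J` on `ℤ ^ d \ {0}` of total mass `S` which are at most `ε`
and, for some `R ≥ 1`, at least `lam R ^ σ max (R, |z|) ^ (-(d + σ))` (so at least `lam R ^ (-d)` up
to distance `R`; for instance `J z = R ^ (-d) ψ (z / R)` with `R` large, `ψ` bounded and integrable,
`ψ x ≥ lam max (1, |x|) ^ (-(d + σ))`, normalised). With `p 0 ≥ p 1 ≥ ...` the cycle lengths divided
by the number of points, there are a function `m` and a time `β` in `[1 / S, (1 + δ) / S]` such that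

* for `0 < t ≤ β` the probability of `ε' ≤ p i` tends to `0`, for all `i` and all `ε' > 0`;
* for EVERY `t ≥ (1 + δ) / S` and every `i` there are `ε₀, c > 0` such that the probability of
  `ε' ≤ p i` is at least `c` for all large sides and all `ε' ≤ ε₀`;
* for every `t > 0` the limits as the side tends to infinity of the expected sums of the first `k`
  of the `p i` exist and converge to `m t` as `k → ∞`; and `(p i)` converges in law to `m t` times
  a Poisson-Dirichlet(1) sequence;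
* `|m t - giantDensity (t S)| ≤ δ` for ALL `t ≥ 0`: the mass of the macroscopic cycles is uniformly
  close to its value for the complete graph (Schramm 2005);
* `m` is continuous on `[0, ∞)`, with values in `[0, 1]`, and `m t = 0` for `t ≤ β`. -/
theorem result (d : ℕ) (σ lam S δ : ℝ) (hd : 1 ≤ d) (hσ : 0 < σ) (hσd : σ < d) (hlam : 0 < lam)
    (hS : 0 < S) (hδ : 0 < δ) :
    ∃ ε : ℝ, 0 < ε ∧ ∀ (R : ℝ) (J : (Fin d → ℤ) → ℝ), 1 ≤ R →
      HasSum (fun z : {z : Fin d → ℤ // z ≠ 0} => J z) S →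
      (∀ z, z ≠ 0 → J z ≤ ε) →
      (∀ z, z ≠ 0 → lam * R ^ σ * (max R (supNorm z : ℝ)) ^ (-((d : ℝ) + σ)) ≤ J z) →
      ∃ (m : ℝ → ℝ) (β : ℝ), 1 / S ≤ β ∧ β ≤ (1 + δ) / S ∧
        (∀ t : ℝ, 0 < t → t ≤ β → ∀ (i : ℕ) (ε' : ℝ), 0 < ε' →
          Tendsto (cycleProb d J t i ε') atTop (𝓝 0)) ∧
        (∀ t : ℝ, (1 + δ) / S ≤ t → ∀ i : ℕ, ∃ ε₀ c : ℝ, 0 < ε₀ ∧ 0 < c ∧ ∃ L₀ : ℕ,
          ∀ L : ℕ, L₀ ≤ L → ∀ ε' : ℝ, ε' ≤ ε₀ → c ≤ cycleProb d J t i ε' L) ∧
        (∀ t : ℝ, 0 < t → (∃ M : ℕ → ℝ,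
          (∀ k : ℕ, Tendsto (fun L => ∑ i ∈ range k, torusExp d J t L (fun g => cycleFrac g i))
            atTop (𝓝 (M k))) ∧ Tendsto M atTop (𝓝 (m t))) ∧
          ∀ (k : ℕ) (f : (Fin k → ℝ) → ℝ), Continuous f → (∃ B, ∀ u, |f u| ≤ B) →
            Tendsto (fun L => torusExp d J t L (fun g => f (fun i => cycleFrac g i))) atTop
              (𝓝 (pdMean (fun u : Fin k → ℝ => f (fun i => m t * u i))))) ∧
        (∀ t : ℝ, 0 ≤ t → |m t - giantDensity (t * S)| ≤ δ) ∧
        (∀ t : ℝ, 0 ≤ m t ∧ m t ≤ 1) ∧ ContinuousOn m (Set.Ici 0) ∧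
        (∀ t : ℝ, t ≤ β → m t = 0) := by
  have hd1 : (1 : ℝ) ≤ d := by exact_mod_cast hd
  obtain ⟨r1, r2, r3, r4, -, -, -⟩ := Pool.Agent.N795.SO.root
  have hg0 : 0 < giantDensity (1 + δ) := r3 (1 + δ) (by linarith)
  obtain ⟨δ', hδ'⟩ : ∃ δ' : ℝ, δ' = min δ (giantDensity (1 + δ) / 2) := ⟨_, rfl⟩
  have hδ'0 : 0 < δ' := by rw [hδ']; exact lt_min hδ (by positivity)
  have hδ'1 : δ' ≤ δ := by rw [hδ']; exact min_le_left _ _
  have hδ'2 : δ' ≤ giantDensity (1 + δ) / 2 := by rw [hδ']; exact min_le_right _ _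
  have hLn := Pool.Agent.N795.LN.lnmt Pool.Agent.N795.LN.star Pool.Agent.N795.LN.one_step
    Pool.Agent.N795.LN.det
  obtain ⟨ε, hε, H⟩ := Pool.Agent.N795.SO.so_main hLn Pool.Agent.N795.LN.ker_le
    Pool.Agent.N795.SO.kol (Pool.Agent.N795.SO.pde Pool.Agent.N795.SO.vari
      Pool.Agent.N795.SO.det1 Pool.Agent.N795.SO.ell) Pool.Agent.N795.SO.burg
    Pool.Agent.N795.SO.trans Pool.Agent.N795.SO.row Pool.Agent.N795.SO.root d σ lam S δ' hd hσ hσd
    hlam hS hδ'0
  refine ⟨ε, hε, ?_⟩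
  intro R J hR hsum hup hlow
  have hR0 : 0 < R := by linarith
  have hJpos : ∀ z : Fin d → ℤ, z ≠ 0 → 0 ≤ J z := fun z hz => by
    refine le_trans ?_ (hlow z hz)
    have : 0 < max R (supNorm z : ℝ) := lt_of_lt_of_le hR0 (le_max_left _ _)
    positivity
  have hfs : ∀ s : Finset (Fin d → ℤ), 0 ∉ s → ∑ z ∈ s, J z ≤ S := by
    classical
    intro s hs
    have h1 : ∑ z ∈ s, J z = ∑ z ∈ s.subtype (fun z => z ≠ 0), J z := by
      rw [Finset.sum_subtype_eq_sum_filter]
      refine Finset.sum_congr ?_ fun _ _ => rfl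
      ext z
      rw [Finset.mem_filter]
      exact ⟨fun hz => ⟨hz, fun h0 => hs (h0 ▸ hz)⟩, fun hz => hz.1⟩
    rw [h1]
    exact sum_le_hasSum _ (fun z _ => hJpos z.1 z.2) hsum
  have hSP : Pool.Agent.N795.SO.SP d σ lam S R J := ⟨hlam, hR, hlow, hfs⟩
  have hSM := hSP.sm hσ
  have hJ0 : ∀ (L : ℕ) (x y : Fin d → ZMod (L + 1)), 0 ≤ Pool.Agent.N795.ST.tr J x y :=
    fun L x y => hSM.tr_nonneg x y
  obtain ⟨m, a, hm, -, ⟨D, hD⟩, hsmall, hlarge⟩ := Pool.Agent.N795.LN.all_times hLn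
    Pool.Agent.N795.LN.ker_le Pool.Agent.N795.ST.geo hSM hd hσ hσd
  have hm01 : ∀ t, 0 ≤ m t ∧ m t ≤ 1 := by
    intro t
    by_cases ht : 0 < t
    · exact ⟨(hm t ht).1, (hm t ht).2.1⟩
    · rw [hsmall S t hfs (by nlinarith)]
      exact ⟨le_rfl, zero_le_one⟩
  have hγ : 0 < ((d : ℝ) - σ) / (5 * d + σ) := by
    have : 0 < (d : ℝ) - σ := by linarith
    positivity
  obtain ⟨β, hβ0, hβS, hβz, -⟩ := Pool.Agent.N795.LN.crit (S := S) (fun t => (hm01 t).1) hγ hD
    (fun t ht => hsmall S t hfs ht) hlarge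
  have hclose : ∀ t : ℝ, 0 ≤ t → |m t - giantDensity (t * S)| ≤ δ' := by
    intro t ht
    rcases eq_or_lt_of_le ht with h0 | h0
    · have h1 : giantDensity (t * S) = 0 := r2 (t * S) (by rw [← h0, zero_mul])
        (by rw [← h0, zero_mul]; exact zero_le_one)
      rw [h1, hβz t (by linarith), sub_zero, abs_zero]
      exact hδ'0.le
    · obtain ⟨h1, h2, h3, h4, h5, -, -⟩ := hm t h0
      exact H R J hSP hup hsum t (a t) (m t) h0 h1 h2 h3 h4 h5
  have hposm : ∀ t : ℝ, (1 + δ) / S ≤ t → 0 < m t := by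
    intro t ht
    have ht1 : 1 + δ ≤ t * S := by rwa [div_le_iff₀ hS] at ht
    have ht0 : 0 ≤ t := le_trans (by positivity) ht
    have h1 := hclose t ht0
    have h2 : giantDensity (1 + δ) ≤ giantDensity (t * S) := r4 (1 + δ) (t * S) (by linarith) ht1
    rw [abs_le] at h1
    linarith [h1.1]
  refine ⟨m, β, ?_, ?_, fun t ht htβ => ?_, fun t ht => ?_, fun t ht => ⟨?_, ?_⟩,
    fun t ht => (hclose t ht).trans hδ'1, hm01, ?_, hβz⟩
  · rwa [div_le_iff₀ hS]
  · by_contra hcon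
    rw [not_le] at hcon
    have h1 := hposm ((1 + δ) / S) le_rfl
    rw [hβz _ hcon.le] at h1
    exact lt_irrefl _ h1
  · obtain ⟨-, -, -, -, -, -, h6⟩ := hm t ht
    rw [hβz t htβ] at h6
    exact fun i ε' hε' => no_macro hJ0 ht.le h6 i ε' hε'
  · have ht0 : 0 < t := lt_of_lt_of_le (by positivity) ht
    obtain ⟨-, -, -, -, -, -, h6⟩ := hm t ht0
    exact many (hposm t ht) hJ0 ht0.le h6
  · obtain ⟨h1, h2, -, -, -, -, h6⟩ := hm t ht
    simp only [torus_eq, frac_eq]
    exact Pool.Agent.N795.ST.sums_lim (V := fun L => Fin d → ZMod (L + 1))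
      (fun L => Pool.Agent.N795.ST.tr J) t (m t) h1 h2 h6
  · obtain ⟨-, -, -, -, -, -, h6⟩ := hm t ht
    intro k f hf hB
    simp only [torus_eq, frac_eq, pd_eq]
    exact h6 k f hf hB
  · intro t ht
    rw [Metric.continuousWithinAt_iff]
    intro η hη
    have h2 : Tendsto (fun s : ℝ => D * s ^ (((d : ℝ) - σ) / (5 * d + σ))) (𝓝 0) (𝓝 0) := by
      have h3 : Tendsto (fun s : ℝ => s ^ (((d : ℝ) - σ) / (5 * d + σ))) (𝓝 0)
          (𝓝 ((0 : ℝ) ^ (((d : ℝ) - σ) / (5 * d + σ)))) :=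
        (Real.continuousAt_rpow_const 0 _ (Or.inr hγ.le)).tendsto
      rw [Real.zero_rpow hγ.ne'] at h3
      have h4 := h3.const_mul D
      rwa [mul_zero] at h4
    obtain ⟨ρ, hρ, h5⟩ := Metric.tendsto_nhds_nhds.1 h2 η hη
    refine ⟨ρ, hρ, fun {s} hs hst => ?_⟩
    have h6 := h5 (x := |s - t|) (by
      rw [Real.dist_eq, sub_zero, abs_abs]
      rwa [Real.dist_eq] at hst)
    rw [Real.dist_eq, sub_zero] at h6
    rw [Real.dist_eq]
    exact lt_of_le_of_lt ((hD s t hs ht).trans (le_abs_self _)) h6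

end Pool.Agent.Results.MP_6c3d62_pr.SpreadOutLimit
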