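import Pool.Agent.N795.ST.Weak2
import Pool.Agent.N73.STdom
import Pool.Agent.N935.STgain
import Pool.Agent.N999.STPure
import Pool.Agent.N340.STJoin
import Pool.Agent.N738.STclosed
import Pool.Agent.N130.STNearFar
import Pool.Agent.N279.STPoi
import Pool.Agent.N803.STCmp
import Pool.Agent.N803.STGeo
import Pool.Agent.N429.STNmt

set_option autoImplicit false

namespace Pool.Agent.Results.MP_6c3d62_pr.WeakNoise

open Finset Equiv MeasureTheory Filter Topology

/-- The sum over all unordered pairs of the rates. -/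
noncomputable def totalRate {V : Type} [Fintype V] (J : V → V → ℝ) : ℝ := ∑ x, ∑ y, J x y / 2

/-- The probability that random stirring started at the identity, with an independent Poisson clock
of rate `J x y` for every unordered pair `{x, y}` (`J` symmetric), is at the permutation `g` at time
`t`: there are `n` rings up to time `t` with probability `exp (-R t) (R t)^n / n!`, `R` the total
rate, and each ring is a ring of the ordered pair `(x, y)` with probability `J x y / (2 R)`. -/
noncomputable def stirLaw {V : Type} [Fintype V] [DecidableEq V] (J : V → V → ℝ) (t : ℝ)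
    (g : Perm V) : ℝ :=
  ∑' n : ℕ, Real.exp (-(t * totalRate J)) * t ^ n / (n.factorial : ℝ) *
    ∑ w : Fin n → V × V, (∏ i, J (w i).1 (w i).2 / 2) *
      (if (List.ofFn fun i => swap (w i).1 (w i).2).prod = g then 1 else 0)

/-- The expectation of `F` under random stirring at time `t`. -/
noncomputable def stirExp {V : Type} [Fintype V] [DecidableEq V] (J : V → V → ℝ) (t : ℝ)
    (F : Perm V → ℝ) : ℝ := ∑ g, stirLaw J t g * F g

/-- Length of the cycle of `g` through `v`. -/
noncomputable def cycleLen {V : Type} [Fintype V] (g : Perm V) (v : V) : ℕ :=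
  Nat.card {w : V // g.SameCycle v w}

/-- The fraction of the points that lie in cycles with at least `K` points. -/
noncomputable def longMass {V : Type} [Fintype V] (K : ℝ) (g : Perm V) : ℝ :=
  (Nat.card {v : V // K ≤ (cycleLen g v : ℝ)} : ℝ) / Fintype.card V

/-- The `i`-th largest cycle length (`i = 0` for the largest) divided by the number of points, and
`0` if there are at most `i` cycles; i.e. `p (i + 1)` in the notation of the problem. -/
noncomputable def cycleFrac {V : Type} [Fintype V] [DecidableEq V] (g : Perm V) (i : ℕ) : ℝ :=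
  sSup {x : ℝ | i + 1 ≤ Multiset.card
    (Multiset.filter (fun c : ℕ => x ≤ (c : ℝ) / Fintype.card V) g.partition.parts)}

/-- The mean of `f (ξ 0, ..., ξ (m - 1))` for the Poisson-Dirichlet(1) random sequence
`ξ 0 ≥ ξ 1 ≥ ...`, the ordered stick breaking sequence. -/
noncomputable def pdMean {m : ℕ} (f : (Fin m → ℝ) → ℝ) : ℝ :=
  ∫ U, f (fun i : Fin m => sSup {x : ℝ | (((i : ℕ) + 1 : ℕ) : ℕ∞) ≤
        Set.encard {j : ℕ | x ≤ (U j : ℝ) * ∏ l ∈ Finset.range j, (1 - (U l : ℝ))}})
    ∂(Measure.infinitePi (fun _ : ℕ => (volume : Measure unitInterval)))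

/-- The sup-norm on `ℤ ^ d`. -/
def supNorm {d : ℕ} (z : Fin d → ℤ) : ℕ := univ.sup fun i => (z i).natAbs

/-- The displacement `x - y` on the torus of side `L`, with coordinates in `(-L/2, L/2]`. -/
def disp {d L : ℕ} (x y : Fin d → ZMod L) : Fin d → ℤ := fun i => (x i - y i).valMinAbs

/-- The rates on the torus given by a function `J` of the displacement, symmetrised. -/
noncomputable def torusRate {d L : ℕ} (J : (Fin d → ℤ) → ℝ) (x y : Fin d → ZMod L) : ℝ :=
  open Classical in if x = y then 0 else (J (disp x y) + J (disp y x)) / 2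

/-- The rates `J` plus the noise: the rate `c / N` for every pair of different points, `N` the
number of points. -/
noncomputable def addNoise {V : Type} [Fintype V] [DecidableEq V] (J : V → V → ℝ) (c : ℝ)
    (x y : V) : ℝ := J x y + if x ≠ y then c / (Fintype.card V : ℝ) else 0

/-- The expectation of `F` for random stirring with the rates `J` on the torus of side `L + 1`. -/
noncomputable def torusExp (d : ℕ) (J : (Fin d → ℤ) → ℝ) (t : ℝ) (L : ℕ)
    (F : Perm (Fin d → ZMod (L + 1)) → ℝ) : ℝ :=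
  stirExp (torusRate J : (Fin d → ZMod (L + 1)) → (Fin d → ZMod (L + 1)) → ℝ) t F

/-- The same with noise of strength `c`. -/
noncomputable def noisyExp (d : ℕ) (J : (Fin d → ℤ) → ℝ) (c t : ℝ) (L : ℕ)
    (F : Perm (Fin d → ZMod (L + 1)) → ℝ) : ℝ :=
  stirExp (addNoise (torusRate J : (Fin d → ZMod (L + 1)) → (Fin d → ZMod (L + 1)) → ℝ) c) t F

/-- Nonnegative rates with a finite first moment: the sum of `|z| J z` is finite. -/
def FirstMoment (d : ℕ) (J : (Fin d → ℤ) → ℝ) : Prop :=
  (∀ z, z ≠ 0 → 0 ≤ J z) ∧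
    ∃ B : ℝ, ∀ s : Finset (Fin d → ℤ), 0 ∉ s → ∑ z ∈ s, (supNorm z : ℝ) * J z ≤ B

/-- Rate `1` for nearest neighbours. -/
def nn (d : ℕ) (z : Fin d → ℤ) : ℝ := if ∑ i, (z i).natAbs = 1 then 1 else 0

section bridge

variable {V : Type} [Fintype V] [DecidableEq V]

theorem len_eq (g : Perm V) (v : V) : Pool.Agent.W805.LR.len g v = (cycleLen g v : ℝ) := by
  classical
  unfold Pool.Agent.W805.LR.len cycleLen
  rw [Pool.Agent.W805.LR.cnt_eq, Nat.card_eq_fintype_card, Fintype.card_subtype, Finset.sum_boole]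

theorem mass_eq (K : ℝ) (g : Perm V) : longMass K g = Pool.Agent.TH268.PD.mas K g := by
  classical
  unfold longMass Pool.Agent.TH268.PD.mas
  simp only [len_eq]
  rw [Pool.Agent.TH268.PD.Bad.cnt_eq, Nat.card_eq_fintype_card, Fintype.card_subtype]

theorem frac_eq (g : Perm V) (i : ℕ) :
    cycleFrac g i = Pool.Agent.TH268.PD.top (Pool.Agent.TH268.PD.frac g) i := by
  unfold cycleFrac Pool.Agent.TH268.PD.top
  congr 1
  ext x
  rw [Set.mem_ofPred_eq, Set.mem_ofPred_eq, Pool.Agent.TH268.PD.card_cyc g x]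

theorem pd_eq {m : ℕ} (f : (Fin m → ℝ) → ℝ) : pdMean f = Pool.Agent.TH268.PD.pdm f := rfl

theorem stir_eq (J : V → V → ℝ) (t : ℝ) (F : Perm V → ℝ) :
    stirExp J t F = Pool.Agent.N795.ST.mn J t F := by
  have hlaw : ∀ g, stirLaw J t g = Real.exp (-(t * totalRate J)) *
      Pool.Agent.W805.LR.stirMass J t g := fun g => Pool.Agent.W805.LR.series_eq J t g
  have hsum : ∑ g, Pool.Agent.W805.LR.stirMass J t g = Real.exp (t * totalRate J) :=
    Pool.Agent.W805.LR.sum_mass J t
  unfold stirExp Pool.Agent.N795.ST.mn Pool.Agent.TH268.PD.law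
  rw [hsum]
  refine Finset.sum_congr rfl fun g _ => ?_
  rw [hlaw, Real.exp_neg, div_eq_inv_mul]

end bridge

theorem nn_moment (d : ℕ) : FirstMoment d (nn d) := by
  classical
  refine ⟨fun z _ => by unfold nn; split_ifs <;> norm_num, 3 ^ d, fun s _ => ?_⟩
  obtain ⟨Q, hQ⟩ : ∃ Q : Finset (Fin d → ℤ), Q = Fintype.piFinset fun _ => Finset.Icc (-1 : ℤ) 1 :=
    ⟨_, rfl⟩
  have hQc : Q.card = 3 ^ d := by
    rw [hQ, Fintype.card_piFinset]
    simp
  have h1 : ∀ z ∈ s, (supNorm z : ℝ) * nn d z ≤ if z ∈ Q then 1 else 0 := by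
    intro z _
    unfold nn
    by_cases hz : ∑ i, (z i).natAbs = 1
    · have h2 : ∀ i, (z i).natAbs ≤ 1 := by
        intro i
        rw [← hz]
        exact Finset.single_le_sum (f := fun i => (z i).natAbs) (fun _ _ => Nat.zero_le _)
          (mem_univ i)
      have h3 : z ∈ Q := by
        rw [hQ, Fintype.mem_piFinset]
        intro i
        rw [Finset.mem_Icc]
        have := h2 i
        omega
      have h4 : supNorm z ≤ 1 := Finset.sup_le fun i _ => h2 i
      rw [if_pos hz, if_pos h3, mul_one]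
      exact_mod_cast h4
    · rw [if_neg hz, mul_zero]
      split_ifs <;> norm_num
  refine (Finset.sum_le_sum h1).trans ?_
  rw [← Finset.sum_filter, Finset.sum_const, nsmul_eq_mul, mul_one]
  have h2 : (s.filter fun z => z ∈ Q).card ≤ Q.card :=
    Finset.card_le_card fun z hz => (Finset.mem_filter.1 hz).2
  rw [hQc] at h2
  exact_mod_cast h2

/-- Random stirring (the interchange process) with a weak noise on the torus of side `L` in
dimension `d ≥ 1`. The rates `J`, a function of the displacement, have a finite first moment;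
nearest neighbour stirring is the case `J = nn d`. In addition every pair of different points has
the rate `c L / L ^ d`, where `c L → 0` and `L c L → ∞`: the noise is seen by a given point only
after a time that tends to infinity.

For every time `t > 0` there is a number `m` in `[0, 1]`, the density of the infinite cycles of
stirring WITHOUT noise: for every `K` the mean fraction of the points in cycles with at least `K`
points for stirring without noise converges as the side tends to infinity, and the limit converges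
to `m` as `K → ∞`. For every such noise:

* there are no cycles of intermediate length: the fraction of the points in cycles with at least
  `K` points is close to `m`, uniformly for `K₀ ≤ K ≤ δ₀ L ^ d`;
* the expected sums of the first `k` ordered cycle lengths divided by `L ^ d` converge, and their
  limits converge to `m` as `k → ∞`;
* the ordered cycle lengths divided by `L ^ d` converge in law to `m` times a
  Poisson-Dirichlet(1) sequence.

Moreover `m = 0` if `t` times the sum of the rates `J` is less than `1`. -/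
theorem result :
    (∀ d : ℕ, FirstMoment d (nn d)) ∧
    ∀ (d : ℕ) (J : (Fin d → ℤ) → ℝ) (t : ℝ), 1 ≤ d → FirstMoment d J → 0 < t →
      ∃ m : ℝ, 0 ≤ m ∧ m ≤ 1 ∧
        (∃ a : ℝ → ℝ,
          (∀ K : ℝ, 0 ≤ K → Tendsto (fun L => torusExp d J t L (longMass K)) atTop (𝓝 (a K))) ∧
          Tendsto a atTop (𝓝 m)) ∧
        (∀ c : ℕ → ℝ, (∀ L, 0 < c L) → Tendsto c atTop (𝓝 0) →
          Tendsto (fun L : ℕ => ((L : ℝ) + 1) * c L) atTop atTop →
          (∀ ε : ℝ, 0 < ε → ∃ K₀ δ₀ : ℝ, 0 < δ₀ ∧ ∃ L₀ : ℕ, ∀ L : ℕ, L₀ ≤ L → ∀ K : ℝ, K₀ ≤ K →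
            K ≤ δ₀ * ((L + 1 : ℕ) : ℝ) ^ d →
              noisyExp d J (c L) t L (fun g => |longMass K g - m|) ≤ ε) ∧
          (∃ S : ℕ → ℝ,
            (∀ k : ℕ, Tendsto (fun L => ∑ i ∈ range k,
              noisyExp d J (c L) t L (fun g => cycleFrac g i)) atTop (𝓝 (S k))) ∧
            Tendsto S atTop (𝓝 m)) ∧
          (∀ (k : ℕ) (f : (Fin k → ℝ) → ℝ), Continuous f → (∃ B, ∀ u, |f u| ≤ B) →
            Tendsto (fun L => noisyExp d J (c L) t L (fun g => f (fun i => cycleFrac g i))) atTop
              (𝓝 (pdMean (fun u : Fin k → ℝ => f (fun i => m * u i)))))) ∧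
        (∀ S : ℝ, (∀ s : Finset (Fin d → ℤ), 0 ∉ s → ∑ z ∈ s, J z ≤ S) → t * S < 1 →
          m = 0) := by
  refine ⟨nn_moment, fun d J t hd hJ ht => ?_⟩
  obtain ⟨hJ0, B, hB⟩ := hJ
  have hF : Pool.Agent.N795.ST.FM d J B := ⟨hJ0, hB⟩
  obtain ⟨m, h1, h2, ⟨a, h3, h4⟩, h5, h6⟩ := Pool.Agent.N795.ST.weak
    Pool.Agent.N795.ST.cmp_up Pool.Agent.N795.ST.gain Pool.Agent.N795.ST.geo
    (Pool.Agent.N795.ST.nmt Pool.Agent.N795.ST.pure
      (Pool.Agent.N795.ST.closed Pool.Agent.N795.ST.join) Pool.Agent.N795.ST.poi_sum)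
    hd hF t ht
  have hnoisy : ∀ (c : ℝ) (L : ℕ) (F : Perm (Fin d → ZMod (L + 1)) → ℝ),
      noisyExp d J c t L F = Pool.Agent.N795.ST.mn (Pool.Agent.N795.ST.mf
        (Pool.Agent.N795.ST.tr J : (Fin d → ZMod (L + 1)) → (Fin d → ZMod (L + 1)) → ℝ) c)
          t F := by
    intro c L F
    unfold noisyExp
    rw [stir_eq]
    rfl
  have htorus : ∀ (L : ℕ) (F : Perm (Fin d → ZMod (L + 1)) → ℝ),
      torusExp d J t L F = Pool.Agent.N795.ST.mn
        (Pool.Agent.N795.ST.tr J : (Fin d → ZMod (L + 1)) → (Fin d → ZMod (L + 1)) → ℝ) t F := by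
    intro L F
    unfold torusExp
    rw [stir_eq]
    rfl
  refine ⟨m, h1, h2, ⟨a, fun K hK => ?_, h4⟩, fun c hc hc0 hcL => ?_, h6⟩
  · refine (h3 K hK).congr fun L => ?_
    rw [htorus]
    unfold Pool.Agent.N795.ST.aa
    congr 1
    funext g
    rw [mass_eq]
  · obtain ⟨h7, h8⟩ := h5 c hc hc0 hcL
    simp only [hnoisy, frac_eq, pd_eq]
    refine ⟨fun ε hε => ?_, ?_, h8⟩
    · obtain ⟨K₀, δ₀, -, h9, L₀, h10⟩ := h7 ε hε
      refine ⟨K₀, δ₀, h9, L₀, fun L hL K hK1 hK2 => ?_⟩
      simp only [mass_eq]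
      exact h10 L hL K hK1 hK2
    · exact Pool.Agent.N795.ST.sums_lim (V := fun L => Fin d → ZMod (L + 1))
        (fun L => Pool.Agent.N795.ST.mf (Pool.Agent.N795.ST.tr J) (c L)) t m h1 h2 h8

end Pool.Agent.Results.MP_6c3d62_pr.WeakNoise
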